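import Pool.Agent.W912.LG.Defs
import Pool.Agent.H622R2.Ckt.LOC
import Pool.Agent.H620R2.Gauge.S

/-!
# Counting the oracles near which the generator fails
-/

set_option autoImplicit false

namespace Pool.Agent.W110.LG

open Pool.Agent.NPC Pool.Agent.H620R2.Gauge Pool.Agent.H622R2.Exp Pool.Agent.H622R2.Ckt
open Pool.Agent.W912.LG

theorem rep_inj : ∀ (i j : ℕ) (x y : List Bool),
    List.replicate i true ++ false :: x = List.replicate j true ++ false :: y → i = j ∧ x = y := by
  intro i
  induction i with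
  | zero =>
    intro j x y h
    cases j with
    | zero => exact ⟨rfl, (List.cons.inj h).2⟩
    | succ j =>
      rw [List.replicate_succ, List.cons_append] at h
      exact absurd (List.cons.inj h).1 (by simp)
  | succ i ih =>
    intro j x y h
    cases j with
    | zero =>
      rw [List.replicate_succ, List.cons_append] at h
      exact absurd (List.cons.inj h).1 (by simp)
    | succ j =>
      rw [List.replicate_succ, List.replicate_succ, List.cons_append, List.cons_append] at h
      obtain ⟨h1, h2⟩ := ih j x y (List.cons.inj h).2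
      exact ⟨by rw [h1], h2⟩

theorem tq_inj {m i j : ℕ} {x y : List Bool} (h : tq m i x = tq m j y) : i = j ∧ x = y := by
  unfold tq at h
  exact rep_inj i j x y (List.cons.inj (List.append_cancel_left h)).2

theorem tq_length (m i : ℕ) (x : List Bool) : m < (tq m i x).length := by
  unfold tq
  rw [List.length_append, List.length_replicate, List.length_cons]
  omega

theorem exists_ofFn {n : ℕ} (l : List Bool) (h : l.length = n) :
    ∃ x : Fin n → Bool, List.ofFn x = l := by
  subst h
  exact ⟨l.get, List.ofFn_get l⟩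

/-- `y` is a test string -/
def IsT (m d : ℕ) (y : List Bool) : Prop :=
  ∃ (x : Fin d → Bool) (i : Fin m), tq m i (List.ofFn x) = y

open Classical in
/-- the oracle with the test strings removed -/
noncomputable def clr (m d : ℕ) (A : Oracle) : Oracle := fun y => if IsT m d y then false else A y

/-- the index `j` belongs to a test string -/
def IsI (m d : ℕ) (j : ℕ) : Prop :=
  ∃ p : (Fin d → Bool) × Fin m, idx (tq m p.2 (List.ofFn p.1)) = j

theorem IsI_inj {m d : ℕ} {p p' : (Fin d → Bool) × Fin m}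
    (h : idx (tq m p.2 (List.ofFn p.1)) = idx (tq m p'.2 (List.ofFn p'.1))) : p = p' := by
  have h1 : tq m p.2 (List.ofFn p.1) = tq m p'.2 (List.ofFn p'.1) := by
    rw [← str_idx (tq m p.2 (List.ofFn p.1)), h, str_idx]
  obtain ⟨h2, h3⟩ := tq_inj h1
  exact Prod.ext (List.ofFn_injective h3) (Fin.ext h2)

open Classical in
/-- overwrite the bits at the test strings -/
noncomputable def ovr (m d N : ℕ) (u : Fin N → Bool) (z : (Fin d → Bool) → (Fin m → Bool)) :
    Fin N → Bool :=
  fun j => if h : IsI m d j then z h.choose.1 h.choose.2 else u j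

/-- the bits at the test strings -/
noncomputable def zz (m d N : ℕ) (v : Fin N → Bool) : (Fin d → Bool) → (Fin m → Bool) :=
  fun x i => orc N v (tq m i (List.ofFn x))

theorem ovr_pos {m d N : ℕ} (u : Fin N → Bool) (z : (Fin d → Bool) → (Fin m → Bool))
    (j : Fin N) (x : Fin d → Bool) (i : Fin m) (h : idx (tq m i (List.ofFn x)) = j) :
    ovr m d N u z j = z x i := by
  have h1 : IsI m d j := ⟨(x, i), h⟩
  unfold ovr
  rw [dif_pos h1]
  have h2 : h1.choose = (x, i) := IsI_inj (h1.choose_spec.trans h.symm)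
  rw [h2]

theorem ovr_neg {m d N : ℕ} (u : Fin N → Bool) (z : (Fin d → Bool) → (Fin m → Bool))
    (j : Fin N) (h : ¬ IsI m d j) : ovr m d N u z j = u j := by
  unfold ovr
  rw [dif_neg h]

theorem clr_ovr {m d N : ℕ} (u : Fin N → Bool) (z : (Fin d → Bool) → (Fin m → Bool)) :
    clr m d (orc N (ovr m d N u z)) = clr m d (orc N u) := by
  funext y
  unfold clr
  by_cases h : IsT m d y
  · rw [if_pos h, if_pos h]
  · rw [if_neg h, if_neg h]
    unfold orc
    by_cases hy : idx y < N
    · rw [dif_pos hy, dif_pos hy]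
      apply ovr_neg
      rintro ⟨p, hp⟩
      apply h
      refine ⟨p.1, p.2, ?_⟩
      have hp' : idx (tq m p.2 (List.ofFn p.1)) = idx y := hp
      rw [← str_idx (tq m p.2 (List.ofFn p.1)), hp', str_idx]
    · rw [dif_neg hy, dif_neg hy]

section

variable {m d N : ℕ} (hN : ∀ i < m, ∀ x : List Bool, x.length = d → idx (tq m i x) < N)

include hN

theorem zz_ovr (u : Fin N → Bool) (z : (Fin d → Bool) → (Fin m → Bool)) :
    zz m d N (ovr m d N u z) = z := by
  funext x i
  have h := hN i i.2 (List.ofFn x) List.length_ofFn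
  unfold zz orc
  rw [dif_pos h]
  exact ovr_pos u z ⟨_, h⟩ x i rfl

theorem ovr_ovr (v : Fin N → Bool) (z : (Fin d → Bool) → (Fin m → Bool)) :
    ovr m d N (ovr m d N v z) (zz m d N v) = v := by
  funext j
  by_cases h : IsI m d j
  · obtain ⟨⟨x, i⟩, hp⟩ := h
    rw [ovr_pos _ _ j x i hp]
    have h1 := hN i i.2 (List.ofFn x) List.length_ofFn
    unfold zz orc
    rw [dif_pos h1]
    congr 1
    exact Fin.ext hp
  · rw [ovr_neg _ _ _ h, ovr_neg _ _ _ h]

end

theorem frac_eq (n : ℕ) (P : List Bool → Prop) :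
    frac n P = (Set.ncard {x : Fin n → Bool | P (List.ofFn x)} : ℝ) / 2 ^ n := by
  unfold frac
  have h1 : {x : List Bool | x.length = n ∧ P x} =
      List.ofFn '' {x : Fin n → Bool | P (List.ofFn x)} := by
    ext l
    constructor
    · rintro ⟨h1, h2⟩
      obtain ⟨x, rfl⟩ := exists_ofFn l h1
      exact ⟨x, h2, rfl⟩
    · rintro ⟨x, hx, rfl⟩
      exact ⟨List.length_ofFn, hx⟩
  rw [h1, Set.ncard_image_of_injective _ List.ofFn_injective]

theorem near_clr {m d N s : ℕ} (v v' : Fin N → Bool)
    (h : (Pool.Agent.W900.CH.df v v').card ≤ s) :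
    Pool.Agent.W912.LG.Near (clr m d (orc N v)) (clr m d (orc N v')) s := by
  have hsub : {y | clr m d (orc N v') y ≠ clr m d (orc N v) y} ⊆
      (fun j : Fin N => str (j : ℕ)) '' (↑(Pool.Agent.W900.CH.df v v') : Set (Fin N)) := by
    intro y hy
    have hy' : clr m d (orc N v') y ≠ clr m d (orc N v) y := hy
    unfold clr at hy'
    by_cases hT : IsT m d y
    · rw [if_pos hT, if_pos hT] at hy'
      exact absurd rfl hy'
    rw [if_neg hT, if_neg hT] at hy'
    unfold orc at hy'
    by_cases hyN : idx y < N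
    · rw [dif_pos hyN, dif_pos hyN] at hy'
      exact ⟨⟨idx y, hyN⟩, Finset.mem_coe.2 (Pool.Agent.W900.CH.mem_df.2 (Ne.symm hy')),
        str_idx y⟩
    · rw [dif_neg hyN, dif_neg hyN] at hy'
      exact absurd rfl hy'
  have hfin : ((fun j : Fin N => str (j : ℕ)) ''
      (↑(Pool.Agent.W900.CH.df v v') : Set (Fin N))).Finite :=
    (Finset.finite_toSet _).image _
  refine ⟨hfin.subset hsub, ?_⟩
  refine (Set.ncard_le_ncard hsub hfin).trans ?_
  refine (Set.ncard_image_le (Finset.finite_toSet _)).trans ?_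
  rw [Set.ncard_coe_finset]
  exact h

theorem eval_clr {m d : ℕ} (A : Oracle) (C : Circuit) (hC : C.size ≤ m) (x : List Bool) :
    C.eval A x = C.eval (clr m d A) x := by
  apply eval_local
  intro y hy
  unfold clr
  rw [if_neg]
  rintro ⟨x', i, rfl⟩
  have := tq_length m i (List.ofFn x')
  omega

theorem GG_eq (A : Oracle) (m : ℕ) (x : List Bool) :
    GG A m x = List.ofFn (fun i : Fin m => A (tq m i x)) := by
  unfold GG
  apply List.ext_getElem
  · simp
  · intro i h1 h2
    simp

/-- the class of sets -/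
def FF (m d N s : ℕ) (u : Fin N → Bool) : Set ((Fin m → Bool) → Bool) :=
  {h | ∃ (A : Oracle) (C : Circuit), Pool.Agent.W912.LG.Near (clr m d (orc N u)) A s ∧
    C.size ≤ m ∧ ∀ x, h x = C.eval A (List.ofFn x)}

theorem key {m d N s : ℕ} (h16 : 16 * s ≤ 2 ^ d)
    (hN : ∀ i < m, ∀ x : List Bool, x.length = d → idx (tq m i x) < N)
    (u : Fin N → Bool) (z : (Fin d → Bool) → (Fin m → Bool)) (v' : Fin N → Bool)
    (hdf : (Pool.Agent.W900.CH.df (ovr m d N u z) v').card ≤ s) (C : Circuit) (hC : C.size ≤ m)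
    (hadv : 1 / 8 < adv (orc N v') C m d (GG (orc N v') m)) :
    ∃ h ∈ FF m d N s u, (1 : ℝ) / 16 <
      |(Set.ncard {i | h (z i) = true} : ℝ) / Fintype.card (Fin d → Bool) -
        (Set.ncard {x | h x = true} : ℝ) / Fintype.card (Fin m → Bool)| := by
  classical
  set v := ovr m d N u z with hv
  refine ⟨fun x => C.eval (clr m d (orc N v')) (List.ofFn x), ⟨clr m d (orc N v'), C, ?_, hC,
    fun x => rfl⟩, ?_⟩
  · have h1 := near_clr (m := m) (d := d) v v' hdf
    rw [hv, clr_ovr] at h1
    exact h1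
  unfold adv at hadv
  rw [frac_eq, frac_eq] at hadv
  have hX : (Fintype.card (Fin m → Bool) : ℝ) = 2 ^ m := by
    rw [Fintype.card_fun, Fintype.card_bool, Fintype.card_fin]; norm_num
  have hι : (Fintype.card (Fin d → Bool) : ℝ) = 2 ^ d := by
    rw [Fintype.card_fun, Fintype.card_bool, Fintype.card_fin]; norm_num
  rw [hX, hι]
  have h2 : {x : Fin m → Bool | C.eval (orc N v') (List.ofFn x) = true} =
      {x : Fin m → Bool | C.eval (clr m d (orc N v')) (List.ofFn x) = true} := by
    ext x
    rw [Set.mem_setOf_eq, Set.mem_setOf_eq, eval_clr (d := d) _ C hC]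
  rw [h2] at hadv
  set b : ℝ := (Set.ncard {x : Fin m → Bool | C.eval (clr m d (orc N v')) (List.ofFn x) = true} : ℝ)
    / 2 ^ m with hb
  let S1 : Set (Fin d → Bool) :=
    {x | C.eval (orc N v') (GG (orc N v') m (List.ofFn x)) = true}
  let S2 : Set (Fin d → Bool) :=
    {x | C.eval (clr m d (orc N v')) (List.ofFn (z x)) = true}
  let D : Set (Fin d → Bool) :=
    {x | ∃ i : Fin m, orc N v' (tq m i (List.ofFn x)) ≠ orc N v (tq m i (List.ofFn x))}
  have hzz : zz m d N v = z := zz_ovr hN u z
  have hagree : ∀ x, x ∉ D → (x ∈ S1 ↔ x ∈ S2) := by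
    intro x hx
    have h3 : GG (orc N v') m (List.ofFn x) = List.ofFn (z x) := by
      rw [GG_eq, ← hzz]
      congr 1
      funext i
      by_contra hcon
      exact hx ⟨i, hcon⟩
    change C.eval (orc N v') (GG (orc N v') m (List.ofFn x)) = true ↔
      C.eval (clr m d (orc N v')) (List.ofFn (z x)) = true
    rw [h3, eval_clr (d := d) _ C hC]
  have hDcard : D.ncard ≤ s := by
    let dec : Fin N → (Fin d → Bool) := fun j =>
      if h : IsI m d j then h.choose.1 else fun _ => false
    have hsub : D ⊆ dec '' (↑(Pool.Agent.W900.CH.df v v') : Set (Fin N)) := by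
      rintro x ⟨i, hi⟩
      have h4 := hN i i.2 (List.ofFn x) List.length_ofFn
      unfold orc at hi
      rw [dif_pos h4, dif_pos h4] at hi
      refine ⟨⟨_, h4⟩, Finset.mem_coe.2 (Pool.Agent.W900.CH.mem_df.2 (Ne.symm hi)), ?_⟩
      have h5 : IsI m d (idx (tq m i (List.ofFn x))) := ⟨(x, i), rfl⟩
      change (if h : IsI m d (idx (tq m i (List.ofFn x))) then h.choose.1 else fun _ => false) = x
      rw [dif_pos h5]
      have h6 : h5.choose = (x, i) := IsI_inj h5.choose_spec
      rw [h6]
    refine (Set.ncard_le_ncard hsub (Set.toFinite _)).trans ?_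
    refine (Set.ncard_image_le (Finset.finite_toSet _)).trans ?_
    rw [Set.ncard_coe_finset]
    exact hdf
  have h3 : S1.ncard ≤ S2.ncard + s := by
    have hsub : S1 ⊆ S2 ∪ D := by
      intro x hx
      by_cases hxD : x ∈ D
      · exact Or.inr hxD
      · exact Or.inl ((hagree x hxD).1 hx)
    have h4 := Set.ncard_le_ncard hsub (Set.toFinite _)
    have h5 := Set.ncard_union_le S2 D
    omega
  have h4 : S2.ncard ≤ S1.ncard + s := by
    have hsub : S2 ⊆ S1 ∪ D := by
      intro x hx
      by_cases hxD : x ∈ D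
      · exact Or.inr hxD
      · exact Or.inl ((hagree x hxD).2 hx)
    have h4 := Set.ncard_le_ncard hsub (Set.toFinite _)
    have h5 := Set.ncard_union_le S1 D
    omega
  change (1 : ℝ) / 8 < |(S1.ncard : ℝ) / 2 ^ d - b| at hadv
  change (1 : ℝ) / 16 < |(S2.ncard : ℝ) / 2 ^ d - b|
  have hpos : (0 : ℝ) < 2 ^ d := by positivity
  have h5 : |(S1.ncard : ℝ) / 2 ^ d - (S2.ncard : ℝ) / 2 ^ d| ≤ 1 / 16 := by
    rw [← sub_div, abs_div, abs_of_pos hpos, div_le_iff₀ hpos]
    have h6 : |(S1.ncard : ℝ) - S2.ncard| ≤ s := by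
      rw [abs_le]
      have h3' : (S1.ncard : ℝ) ≤ S2.ncard + s := by exact_mod_cast h3
      have h4' : (S2.ncard : ℝ) ≤ S1.ncard + s := by exact_mod_cast h4
      constructor <;> linarith
    have h7 : (16 : ℝ) * s ≤ 2 ^ d := by exact_mod_cast h16
    linarith
  have h6 := abs_sub_le ((S1.ncard : ℝ) / 2 ^ d) ((S2.ncard : ℝ) / 2 ^ d) b
  linarith

theorem growth (h1 : S_GROW) {m d N s : ℕ} (u : Fin N → Bool) (Y : Finset (Fin m → Bool))
    (hY : Y.card ≤ 2 * Fintype.card (Fin d → Bool)) :
    Set.ncard {f : (Fin m → Bool) → Bool | (∃ h ∈ FF m d N s u, ∀ y ∈ Y, f y = h y) ∧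
      ∀ y ∉ Y, f y = false} ≤ ((2 * 2 ^ d) * (m + 1) + 1) ^ s * nC m m := by
  classical
  let X : Finset (List Bool) := Y.image List.ofFn
  have hX : ∀ x ∈ X, x.length = m := by
    intro x hx
    obtain ⟨y, -, rfl⟩ := Finset.mem_image.1 hx
    exact List.length_ofFn
  have hXc : X.card = Y.card := Finset.card_image_of_injective _ List.ofFn_injective
  have h2 := h1 m m s (clr m d (orc N u)) X hX
  have hι : Fintype.card (Fin d → Bool) = 2 ^ d := by
    rw [Fintype.card_fun, Fintype.card_bool, Fintype.card_fin]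
  rw [hι] at hY
  have h3 : (X.card * (m + 1) + 1) ^ s * nC m m ≤ ((2 * 2 ^ d) * (m + 1) + 1) ^ s * nC m m := by
    refine Nat.mul_le_mul_right _ (Nat.pow_le_pow_left ?_ s)
    rw [hXc]
    exact Nat.add_le_add_right (Nat.mul_le_mul_right _ hY) 1
  refine le_trans ?_ (h2.trans h3)
  let T : Set (List Bool → Bool) := {f | (∃ (A : Oracle) (C : Circuit),
    Pool.Agent.W912.LG.Near (clr m d (orc N u)) A s ∧ C.size ≤ m ∧
    ∀ x ∈ X, f x = C.eval A x) ∧ ∀ x ∉ X, f x = false}
  have hfin : T.Finite := by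
    have h4 : {f : List Bool → Bool | ∀ x ∉ X, f x = false}.Finite := by
      let g : (List Bool → Bool) → Finset (List Bool) := fun f => X.filter fun x => f x = true
      refine Set.Finite.of_finite_image (f := g) ?_ ?_
      · refine (Finset.finite_toSet X.powerset).subset ?_
        rintro _ ⟨f, -, rfl⟩
        exact Finset.mem_coe.2 (Finset.mem_powerset.2 (Finset.filter_subset _ _))
      · intro f hf f' hf' hff
        funext x
        by_cases hx : x ∈ X
        · have h5 : x ∈ g f ↔ x ∈ g f' := by rw [hff]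
          simp only [g, Finset.mem_filter, hx, true_and] at h5
          exact Bool.eq_iff_iff.2 h5
        · rw [hf x hx, hf' x hx]
    exact h4.subset fun f hf => hf.2
  let ext : ((Fin m → Bool) → Bool) → (List Bool → Bool) := fun f l =>
    if h : ∃ x ∈ Y, List.ofFn x = l then f h.choose else false
  have hext : ∀ (f : (Fin m → Bool) → Bool), ∀ x ∈ Y, ext f (List.ofFn x) = f x := by
    intro f x hx
    have h : ∃ x' ∈ Y, List.ofFn x' = List.ofFn x := ⟨x, hx, rfl⟩
    change (if h : ∃ x' ∈ Y, List.ofFn x' = List.ofFn x then f h.choose else false) = f x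
    rw [dif_pos h]
    congr 1
    exact List.ofFn_injective h.choose_spec.2
  refine Set.ncard_le_ncard_of_injOn ext ?_ ?_ hfin
  · rintro f ⟨⟨h, ⟨A, C, hA, hC, hh⟩, hf1⟩, hf2⟩
    refine ⟨⟨A, C, hA, hC, ?_⟩, ?_⟩
    · intro x hx
      obtain ⟨y, hy, rfl⟩ := Finset.mem_image.1 hx
      rw [hext f y hy, hf1 y hy, hh]
    · intro x hx
      change (if h : ∃ x' ∈ Y, List.ofFn x' = x then f h.choose else false) = false
      rw [dif_neg]
      rintro ⟨x', hx', rfl⟩
      exact hx (Finset.mem_image_of_mem _ hx')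
  · rintro f ⟨-, hf⟩ f' ⟨-, hf'⟩ hff
    funext x
    by_cases hx : x ∈ Y
    · rw [← hext f x hx, ← hext f' x hx, hff]
    · rw [hf x hx, hf' x hx]

theorem cnt3 (h1 : S_GROW) (h2 : S_VC) : S_CNT3 := by
  classical
  intro m d N s h512 h16 hN
  set Bad := (Finset.univ : Finset (Fin N → Bool)).filter (fun v => ∃ v' : Fin N → Bool,
      (Pool.Agent.W900.CH.df v v').card ≤ s ∧ ∃ C : Circuit, C.size ≤ m ∧
        1 / 8 < adv (orc N v') C m d (GG (orc N v') m)) with hBad
  have hι : Fintype.card (Fin d → Bool) = 2 ^ d := by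
    rw [Fintype.card_fun, Fintype.card_bool, Fintype.card_fin]
  let K : ℝ := (Fintype.card (Fin m → Bool) : ℝ) ^ Fintype.card (Fin d → Bool)
  have hK : 0 < K := by
    have : (0 : ℝ) < Fintype.card (Fin m → Bool) := by
      exact_mod_cast Fintype.card_pos
    positivity
  let Γ : ℕ := ((2 * 2 ^ d) * (m + 1) + 1) ^ s * nC m m
  -- the injection
  have hinj : (Bad ×ˢ (Finset.univ : Finset ((Fin d → Bool) → (Fin m → Bool)))).card ≤
      ((Finset.univ : Finset ((Fin N → Bool) × ((Fin d → Bool) → (Fin m → Bool)))).filter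
        (fun p => ovr m d N p.1 p.2 ∈ Bad)).card := by
    apply Finset.card_le_card_of_injOn (fun p => (ovr m d N p.1 p.2, zz m d N p.1))
    · rintro ⟨v, z⟩ hp
      rw [Finset.mem_coe, Finset.mem_product] at hp
      rw [Finset.mem_coe, Finset.mem_filter]
      refine ⟨Finset.mem_univ _, ?_⟩
      simp only
      rw [ovr_ovr hN]
      exact hp.1
    · rintro ⟨v, z⟩ - ⟨v', z'⟩ - h
      simp only [Prod.mk.injEq] at h
      have h3 : z = z' := by
        rw [← zz_ovr hN v z, ← zz_ovr hN v' z', h.1]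
      have h4 : v = v' := by
        rw [← ovr_ovr hN v z, ← ovr_ovr hN v' z', h.1, h.2]
      rw [h3, h4]
  rw [Finset.card_product, Finset.card_univ, Fintype.card_fun] at hinj
  have hsum : ((Finset.univ : Finset ((Fin N → Bool) × ((Fin d → Bool) → (Fin m → Bool)))).filter
        (fun p => ovr m d N p.1 p.2 ∈ Bad)).card =
      ∑ u : Fin N → Bool, ((Finset.univ : Finset ((Fin d → Bool) → (Fin m → Bool))).filter
        (fun z => ovr m d N u z ∈ Bad)).card := by
    simp only [Finset.card_filter, Fintype.sum_prod_type]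
  have hone : ∀ u : Fin N → Bool,
      ((((Finset.univ : Finset ((Fin d → Bool) → (Fin m → Bool))).filter
        (fun z => ovr m d N u z ∈ Bad)).card : ℕ) : ℝ) ≤
      4 * Γ * Real.exp (-(Fintype.card (Fin d → Bool) : ℝ) / 4096) * K := by
    intro u
    have h3 := h2 (Fin d → Bool) (Fin m → Bool) (FF m d N s u) Γ (by rw [hι]; exact h512)
      (fun Y hY => growth h1 u Y hY)
    refine le_trans ?_ h3
    have h4 : (((Finset.univ : Finset ((Fin d → Bool) → (Fin m → Bool))).filter
        (fun z => ovr m d N u z ∈ Bad)).card) ≤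
        Set.ncard {z : (Fin d → Bool) → (Fin m → Bool) | ∃ h ∈ FF m d N s u, (1 : ℝ) / 16 <
        |(Set.ncard {i | h (z i) = true} : ℝ) / Fintype.card (Fin d → Bool) -
          (Set.ncard {x | h x = true} : ℝ) / Fintype.card (Fin m → Bool)|} := by
      rw [← Set.ncard_coe_finset]
      refine Set.ncard_le_ncard ?_ (Set.toFinite _)
      intro z hz
      rw [Finset.mem_coe, Finset.mem_filter, hBad, Finset.mem_filter] at hz
      obtain ⟨-, -, v', hv', C, hC, hadv⟩ := hz
      exact key h16 hN u z v' hv' C hC hadv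
    exact_mod_cast h4
  have hfinal : (Bad.card : ℝ) * K ≤
      (2 : ℝ) ^ N * (4 * Γ * Real.exp (-(Fintype.card (Fin d → Bool) : ℝ) / 4096) * K) := by
    have h3 : (Bad.card : ℝ) * K ≤ ∑ u : Fin N → Bool,
        ((((Finset.univ : Finset ((Fin d → Bool) → (Fin m → Bool))).filter
          (fun z => ovr m d N u z ∈ Bad)).card : ℕ) : ℝ) := by
      have h4 := hinj
      rw [hsum] at h4
      have h5 : ((Bad.card * Fintype.card (Fin m → Bool) ^ Fintype.card (Fin d → Bool) : ℕ) : ℝ) ≤
        ((∑ u : Fin N → Bool, ((Finset.univ : Finset ((Fin d → Bool) → (Fin m → Bool))).filter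
          (fun z => ovr m d N u z ∈ Bad)).card : ℕ) : ℝ) := by exact_mod_cast h4
      rw [Nat.cast_mul, Nat.cast_pow, Nat.cast_sum] at h5
      exact h5
    refine h3.trans ((Finset.sum_le_sum fun u _ => hone u).trans ?_)
    rw [Finset.sum_const, Finset.card_univ, Fintype.card_fun, Fintype.card_bool, Fintype.card_fin,
      nsmul_eq_mul]
    push_cast
    exact le_rfl
  have h5 : (Bad.card : ℝ) ≤
      (2 : ℝ) ^ N * (4 * Γ * Real.exp (-(Fintype.card (Fin d → Bool) : ℝ) / 4096)) := by
    refine le_of_mul_le_mul_right ?_ hK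
    refine hfinal.trans (le_of_eq ?_)
    ring
  refine h5.trans (le_of_eq ?_)
  rw [hι]
  simp only [Γ]
  push_cast
  ring

end Pool.Agent.W110.LG
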